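import Pool.Agent.Helper73.FU.Stmts

/-!
# Comparison (project MP_a2630c_FU, module CMP)
-/

open MeasureTheory Set Metric Real Filter Topology
open scoped RealInnerProductSpace ENNReal
open Pool.Agent.Helper16.Buoy (E cap IsEllipsoid Homothetic buoyancyBody)
open Pool.Agent.Helper73.LR (CB vol GG)
open Pool.Agent.Helper73.SY (CS)

namespace Pool.Agent.Helper79.FU

open Pool.Agent.Helper73.FU

/-! ### The propagation lemma -/

theorem conn {ψ x : ℝ → ℝ} (hψ : Continuous ψ) (pos : ∀ r, 0 < x r) {A B : ℝ}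
    (hAB : A ≤ B) (h1 : ψ B < x B) (h2 : -x A < ψ A) : ∃ r ∈ Icc A B, |ψ r| < x r := by
  by_cases c1 : -x B < ψ B
  · exact ⟨B, right_mem_Icc.2 hAB, abs_lt.2 ⟨c1, h1⟩⟩
  by_cases c2 : ψ A < x A
  · exact ⟨A, left_mem_Icc.2 hAB, abs_lt.2 ⟨h2, c2⟩⟩
  push Not at c1 c2
  have h3 : (0:ℝ) ∈ Icc (ψ B) (ψ A) := ⟨by linarith [pos B], by linarith [pos A]⟩
  obtain ⟨r, hr, hr0⟩ := intermediate_value_Icc' hAB hψ.continuousOn h3
  exact ⟨r, hr, by rw [hr0, abs_zero]; exact pos r⟩

theorem conn' {ψ x : ℝ → ℝ} (hψ : Continuous ψ) (hx : Continuous x) (pos : ∀ r, 0 < x r) {A B : ℝ}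
    (hAB : A < B) (h1 : ψ B < x B) (h2 : -x A < ψ A) : ∃ r ∈ Ioo A B, |ψ r| < x r := by
  obtain ⟨r, hr, h⟩ := conn hψ pos hAB.le h1 h2
  have h3 : IsOpen {r | |ψ r| < x r} := isOpen_lt hψ.abs hx
  have h4 : r ∈ closure (Ioo A B) := by rw [closure_Ioo hAB.ne]; exact hr
  obtain ⟨s, hs1, hs2⟩ := mem_closure_iff.1 h4 _ h3 h
  exact ⟨s, hs2, hs1⟩

/-- Propagation of a closed set of directions. -/
theorem propag {n : ℕ} {Y : E n → E n} {ξ τ : E n → ℝ} {Z : Set (E n)} (hYc : Continuous Y)
    (hξc : Continuous ξ) (hτc : Continuous τ) (xpos : ∀ v, 0 < ξ v)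
    (tup : ∀ v, τ v < inner ℝ v (Y v) + ξ v) (tlo : ∀ v, inner ℝ v (Y (-v)) - ξ (-v) < τ v)
    (hZ : IsClosed Z) (hne : Z.Nonempty)
    (hsp : ∀ u ∈ Z, ∀ v, |τ u - inner ℝ u (Y v)| < ξ v → v ∈ Z) (v : E n) : v ∈ Z := by
  -- `0` is in the set
  have h0 : (0 : E n) ∈ Z := by
    obtain ⟨z, hz, hd⟩ := hZ.exists_infDist_eq_dist hne (0 : E n)
    by_contra hne
    have hz0 : z ≠ 0 := by rintro rfl; exact hne hz
    have key := conn' (ψ := fun r : ℝ => τ z - inner ℝ z (Y (r • z)))
      (x := fun r : ℝ => ξ (r • z)) (by fun_prop) (by fun_prop) (fun r => xpos _)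
      (A := -1) (B := 1) (by norm_num)
      (by simp only [one_smul]; linarith [tup z])
      (by
        have h1 := tlo z
        simp only [neg_smul, one_smul]
        linarith)
    obtain ⟨r, hr, hr1⟩ := key
    have h2 : r • z ∈ Z := hsp z hz _ hr1
    have h3 : infDist (0 : E n) Z ≤ dist (0 : E n) (r • z) := infDist_le_dist_of_mem h2
    rw [hd, dist_zero_left, dist_zero_left, norm_smul, Real.norm_eq_abs] at h3
    have h4 : |r| < 1 := abs_lt.2 hr
    have h5 : 0 < ‖z‖ := norm_pos_iff.2 hz0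
    nlinarith
  -- extension
  have hext : ∀ (v : E n) (R : ℝ), 0 ≤ R → (∀ ρ ∈ Icc (-R) R, ρ • v ∈ Z) →
      ∀ᶠ r in 𝓝 R, r • v ∈ Z := by
    intro v R hR hin
    have e1 : ∀ᶠ r in 𝓝 R, 0 < ξ (r • v) + inner ℝ (R • v) (Y (r • v)) - τ (R • v) := by
      have hc : Continuous fun r : ℝ => ξ (r • v) + inner ℝ (R • v) (Y (r • v)) - τ (R • v) := by
        fun_prop
      exact hc.continuousAt.eventually (lt_mem_nhds (by
        have := tup (R • v)
        show 0 < ξ (R • v) + inner ℝ (R • v) (Y (R • v)) - τ (R • v)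
        linarith))
    have e2 : ∀ᶠ r in 𝓝 R, 0 < τ (-R • v) - inner ℝ (-R • v) (Y (r • v)) + ξ (r • v) := by
      have hc : Continuous fun r : ℝ => τ (-R • v) - inner ℝ (-R • v) (Y (r • v)) + ξ (r • v) := by
        fun_prop
      exact hc.continuousAt.eventually (lt_mem_nhds (by
        have := tlo (-R • v)
        show 0 < τ (-R • v) - inner ℝ (-R • v) (Y (R • v)) + ξ (R • v)
        rw [← neg_smul, neg_neg] at this
        linarith))
    filter_upwards [e1, e2] with r h1 h2
    obtain ⟨ρ, hρ, hρ1⟩ := conn (ψ := fun ρ : ℝ => τ (ρ • v) - inner ℝ (ρ • v) (Y (r • v)))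
      (x := fun _ => ξ (r • v)) (by fun_prop) (fun _ => xpos _)
      (A := -R) (B := R) (by linarith) (by linarith) (by linarith)
    exact hsp _ (hin ρ hρ) _ hρ1
  -- conclusion
  set s : Set ℝ := {R | ∀ c ∈ Icc (-1:ℝ) 1, (c * R) • v ∈ Z} with hs
  have hsc : IsClosed s := by
    have : s = ⋂ c ∈ Icc (-1:ℝ) 1, {R | (c * R) • v ∈ Z} := by
      ext R; simp [hs]
    rw [this]
    refine isClosed_biInter fun c _ => ?_
    exact hZ.preimage (f := fun R : ℝ => (c * R) • v) (by fun_prop)
  have hin : ∀ R ∈ s, 0 ≤ R → ∀ ρ ∈ Icc (-R) R, ρ • v ∈ Z := by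
    intro R hRs hR ρ hρ
    rcases hR.eq_or_lt with h1 | h1
    · have : ρ = 0 := by
        rw [← h1, neg_zero] at hρ
        exact le_antisymm hρ.2 hρ.1
      rw [this, zero_smul]; exact h0
    · have h2 := hRs (ρ / R) ⟨by rw [le_div_iff₀ h1]; linarith [hρ.1],
        by rw [div_le_iff₀ h1]; linarith [hρ.2]⟩
      rwa [div_mul_cancel₀ _ h1.ne'] at h2
  have hsub : Icc (0:ℝ) 1 ⊆ s := by
    refine IsClosed.Icc_subset_of_forall_mem_nhdsWithin (hsc.inter isClosed_Icc) ?_ ?_
    · intro c _
      rw [mul_zero, zero_smul]; exact h0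
    · rintro R ⟨hRs, hR⟩
      have hI := hin R hRs hR.1
      have f1 := hext v R hR.1 hI
      have f2 := hext (-v) R hR.1 (fun ρ hρ => by
        rw [smul_neg, ← neg_smul]
        exact hI (-ρ) ⟨by linarith [hρ.2], by linarith [hρ.1]⟩)
      obtain ⟨ε, hε, hball⟩ := Metric.eventually_nhds_iff.1 (f1.and f2)
      have : ∀ᶠ R' in 𝓝[>] R, R < R' ∧ dist R' R < ε := by
        filter_upwards [self_mem_nhdsWithin, nhdsWithin_le_nhds (Metric.ball_mem_nhds R hε)]
          with R' h1 h2 using ⟨h1, h2⟩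
      filter_upwards [this] with R' hR' c hc
      rw [Real.dist_eq, abs_of_pos (by linarith [hR'.1])] at hR'
      by_cases c1 : c * R' ≤ R
      · by_cases c2 : -R ≤ c * R'
        · exact hI _ ⟨c2, c1⟩
        · push Not at c2
          have h3 : -R' ≤ c * R' := by nlinarith [hc.1, hR.1]
          have h4 := (hball (y := -(c * R')) (by
            rw [Real.dist_eq, abs_of_pos (by linarith)]; linarith [hR'.2])).2
          rwa [smul_neg, ← neg_smul, neg_neg] at h4
      · push Not at c1
        have h3 : c * R' ≤ R' := by nlinarith [hc.2, hR.1]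
        exact (hball (y := c * R') (by
            rw [Real.dist_eq, abs_of_pos (by linarith)]; linarith [hR'.2])).1
  have h1 := hsub (right_mem_Icc.2 zero_le_one) 1 ⟨by norm_num, le_rfl⟩
  rwa [mul_one, one_smul] at h1

/-! ### Basic facts -/

section

variable {n : ℕ} {K : Set (E n)} {F : E n → ℝ}

theorem restr_eq (h : CB K) :
    (volume : Measure (E n)).restrict K = (volume : Measure (E n)).restrict (interior K) := by
  apply Measure.restrict_congr_set
  have h1 : volume (frontier K) = 0 := h.conv.addHaar_frontier volume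
  have h2 := interior_ae_eq_of_null_frontier h1
  exact h2.symm

theorem F_cont (hF : AF K F) : ContinuousOn F (interior K) := by
  have h1 := hF.conc.continuousOn isOpen_interior
  have h2 : ContinuousOn (fun y : E n => ‖y‖ ^ 2) (interior K) := by fun_prop
  have h3 := h1.sub h2
  refine h3.congr fun y _ => ?_
  show F y = F y + ‖y‖ ^ 2 - ‖y‖ ^ 2
  ring

theorem sqF_pos (hF : AF K F) {y : E n} (hy : y ∈ interior K) : 0 < √(F y) :=
  Real.sqrt_pos.2 (hF.pos y hy)

theorem W_cont (hF : AF K F) (v : E n) (t : ℝ) : ContinuousOn (Wf F v t) (interior K) := by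
  unfold Wf
  have h1 := F_cont hF
  have h2 : ContinuousOn (fun y : E n => (t - inner ℝ v y) ^ 2) (interior K) := by fun_prop
  exact h1.sub h2

/-- Bounded continuous functions on the interior are integrable. -/
theorem int_bdd (h : CB K) {f : E n → ℝ} (hc : ContinuousOn f (interior K)) {C : ℝ}
    (hb : ∀ y ∈ interior K, |f y| ≤ C) : IntegrableOn f K := by
  unfold IntegrableOn
  rw [restr_eq h]
  have hfin : volume (interior K) ≠ ⊤ :=
    ((measure_mono interior_subset).trans_lt h.comp.measure_lt_top).ne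
  have h1 : IntegrableOn (fun _ : E n => C) (interior K) := integrableOn_const hfin
  refine Integrable.mono' h1 (hc.aestronglyMeasurable isOpen_interior.measurableSet) ?_
  filter_upwards [ae_restrict_mem isOpen_interior.measurableSet] with y hy
  rw [Real.norm_eq_abs]
  exact hb y hy

theorem rr_mem (v : E n) (t : ℝ) (y : E n) : 0 ≤ rr F v t y ∧ rr F v t y ≤ 1 := by
  unfold rr pp
  refine ⟨div_nonneg (arccos_nonneg _) pi_pos.le, ?_⟩
  rw [div_le_one pi_pos]
  exact arccos_le_pi _

theorem rr_cont (hF : AF K F) (v : E n) (t : ℝ) : ContinuousOn (rr F v t) (interior K) := by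
  unfold rr pp
  have h1 : ContinuousOn (fun y => √(F y)) (interior K) := (F_cont hF).sqrt
  have h2 : ContinuousOn (fun y : E n => t - inner ℝ v y) (interior K) := by fun_prop
  have h3 : ContinuousOn (fun y => (t - inner ℝ v y) / √(F y)) (interior K) :=
    h2.div h1 fun y hy => (sqF_pos hF hy).ne'
  exact (continuous_arccos.comp_continuousOn h3).div_const π

/-- The sine of the optimal density. -/
theorem sin_rr (hF : AF K F) (v : E n) (t : ℝ) {y : E n} (hy : y ∈ interior K) :
    √(F y) * sin (π * rr F v t y) = √(Wf F v t y) := by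
  have h0 := hF.pos y hy
  have h1 : π * rr F v t y = arccos ((t - inner ℝ v y) / √(F y)) := by
    unfold rr pp
    rw [mul_div_cancel₀ _ pi_ne_zero]
  rw [h1, Real.sin_arccos, ← Real.sqrt_mul h0.le]
  congr 1
  unfold Wf
  rw [div_pow, Real.sq_sqrt h0.le]
  field_simp

end

/-! ### The comparison -/

/-- (CMP) -/
theorem cmp : S_cmp := by
  intro n K δ lam F τ g hCS hF hL hB hsub hlb hgpos hgc hgconc hgb hSup
  obtain ⟨Q, c, hQc, hQK, hc, hlb⟩ := hlb
  obtain ⟨Cg, hCg⟩ := hgb
  obtain ⟨CF, hCF⟩ := hF.bdd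
  have hcb := hCS.cb
  have hl := hCS.lpos
  set D := interior K with hD
  have hDo : IsOpen D := isOpen_interior
  have hpl : 0 < π * lam := mul_pos pi_pos hl
  set Y := YY K lam F τ with hYdef
  set ξ := xx K lam F τ with hξdef
  have hξ : ∀ v, ∫ y in K, √(Wf F v (τ v) y) = π * lam * ξ v := by
    intro v
    rw [hξdef]
    unfold xx
    field_simp
  -- the ratio
  set r : E n → ℝ := fun y => g y / √(F y) with hr
  have hsq : ∀ y ∈ D, 0 < √(F y) := fun y hy => sqF_pos hF hy
  have hrc : ContinuousOn r D := hgc.div (F_cont hF).sqrt fun y hy => (hsq y hy).ne'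
  have hrpos : ∀ y ∈ D, 0 < r y := fun y hy => div_pos (hgpos y hy) (hsq y hy)
  have hgr : ∀ y ∈ D, g y = r y * √(F y) := fun y hy => by
    rw [hr]
    simp only
    rw [div_mul_cancel₀ _ (hsq y hy).ne']
  have hYD : ∀ v, Y v ∈ D := hB.Yint
  have hrYc : Continuous fun v => r (Y v) := hrc.comp_continuous hB.Yc hYD
  -- integrability
  have hWc : ∀ v, ContinuousOn (fun y => √(Wf F v (τ v) y)) D := fun v =>
    (W_cont hF v (τ v)).sqrt
  have hWi : ∀ v, IntegrableOn (fun y => √(Wf F v (τ v) y)) K := by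
    intro v
    refine int_bdd hcb (hWc v) (C := √CF) fun y hy => ?_
    rw [abs_of_nonneg (Real.sqrt_nonneg _)]
    apply Real.sqrt_le_sqrt
    have := hCF y hy
    unfold Wf
    nlinarith [sq_nonneg (τ v - inner ℝ v y)]
  have hρc : ∀ v, ContinuousOn (rr F v (τ v)) D := fun v => rr_cont hF v (τ v)
  have hgs : ∀ v, ∀ y ∈ D, g y * sin (π * rr F v (τ v) y) = r y * √(Wf F v (τ v) y) := by
    intro v y hy
    rw [hgr y hy, mul_assoc, sin_rr hF v (τ v) hy]
  have hrWc : ∀ v, ContinuousOn (fun y => r y * √(Wf F v (τ v) y)) D := fun v => hrc.mul (hWc v)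
  have hrWi : ∀ v, IntegrableOn (fun y => r y * √(Wf F v (τ v) y)) K := by
    intro v
    refine int_bdd hcb (hrWc v) (C := Cg) fun y hy => ?_
    rw [← hgs v y hy, abs_mul, abs_of_pos (hgpos y hy)]
    have h1 := abs_sin_le_one (π * rr F v (τ v) y)
    have h2 := hCg y hy
    have h3 := hgpos y hy
    nlinarith
  have hae : ∀ v, ∫ y in K, g y * sin (π * rr F v (τ v) y) =
      ∫ y in K, r y * √(Wf F v (τ v) y) := by
    intro v
    rw [restr_eq hcb]
    exact setIntegral_congr_fun hDo.measurableSet fun y hy => hgs v y hy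
  have hfea : ∀ v, Fea K δ lam (rr F v (τ v)) (Y v) := by
    intro v
    refine ⟨?_, fun x => (rr_mem v (τ v) x).1, fun x => (rr_mem v (τ v) x).2, hL.lev v, ?_⟩
    · rw [restr_eq hcb]
      exact (hρc v).aestronglyMeasurable hDo.measurableSet
    · rw [hYdef]
      unfold YY
      rw [smul_smul, mul_inv_cancel₀ hl.ne', one_smul]
  have hsup : ∀ v, ∫ y in K, r y * √(Wf F v (τ v) y) ≤ π * lam * g (Y v) := by
    intro v
    have h1 := hSup (rr F v (τ v)) (Y v) (hYD v) (hfea v)
    rwa [hae v] at h1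
  have hfY : ∀ v, √(F (Y v)) ≤ ξ v := by
    intro v
    have h1 := hsub v (Y v) (hYD v)
    linarith
  -- (CSI)
  have hcsi : ∀ v, ∫ y in K, r y * √(Wf F v (τ v) y) ≤
      r (Y v) * ∫ y in K, √(Wf F v (τ v) y) := by
    intro v
    refine (hsup v).trans ?_
    rw [hgr _ (hYD v), hξ v]
    have h1 := mul_le_mul_of_nonneg_left (hfY v) (mul_pos hpl (hrpos _ (hYD v))).le
    linarith
  have hWpos : ∀ v, 0 < ∫ y in K, √(Wf F v (τ v) y) := fun v => by
    rw [hξ v]
    exact mul_pos hpl (hB.xpos v)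
  -- the minimum of the ratio is attained
  have hQne : Q.Nonempty := by
    by_contra hne
    rw [not_nonempty_iff_eq_empty] at hne
    have h1 := hlb 0
    rw [hne, Measure.restrict_empty, integral_zero_measure] at h1
    have h2 := mul_pos hc (hWpos 0)
    linarith
  obtain ⟨y0, hy0, hmin⟩ := hQc.exists_isMinOn hQne (hrc.mono hQK)
  set m := r y0 with hm
  have hmpos : 0 < m := hrpos y0 (hQK hy0)
  have hmin' : ∀ y ∈ Q, m ≤ r y := fun y hy => hmin hy
  have hmD : ∀ y ∈ D, m ≤ r y := by
    have hbdd : BddBelow (r '' D) := ⟨0, by rintro _ ⟨y, hy, rfl⟩; exact (hrpos y hy).le⟩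
    have hne : (r '' D).Nonempty := ⟨m, y0, hQK hy0, rfl⟩
    set m0 := sInf (r '' D) with hm0
    have hm0le : ∀ y ∈ D, m0 ≤ r y := fun y hy => csInf_le hbdd ⟨y, hy, rfl⟩
    have h1 : m ≤ m0 := by
      by_contra hlt
      push Not at hlt
      have h2 : m0 + c * (m - m0) ≤ m0 := by
        apply le_csInf hne
        rintro _ ⟨y, hy, rfl⟩
        obtain ⟨v, hv⟩ := hB.Ysurj y hy
        have hv' : Y v = y := hv
        rw [← hv']
        have h3 : ∫ x in K, (m0 * √(Wf F v (τ v) x) +
            Q.indicator (fun x => (m - m0) * √(Wf F v (τ v) x)) x) ≤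
            ∫ x in K, r x * √(Wf F v (τ v) x) := by
          have hi1 : IntegrableOn (fun x => m0 * √(Wf F v (τ v) x)) K := (hWi v).const_mul m0
          have hi2 : IntegrableOn (Q.indicator fun x => (m - m0) * √(Wf F v (τ v) x)) K := by
            have h5 : IntegrableOn (fun x => (m - m0) * √(Wf F v (τ v) x)) K :=
              (hWi v).const_mul (m - m0)
            exact Integrable.indicator h5 hQc.measurableSet
          refine integral_mono_ae (hi1.add hi2) (hrWi v) ?_
          rw [restr_eq hcb]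
          filter_upwards [ae_restrict_mem hDo.measurableSet] with x hx
          have h6 : 0 ≤ √(Wf F v (τ v) x) := Real.sqrt_nonneg _
          by_cases hxQ : x ∈ Q
          · rw [indicator_of_mem hxQ]
            have h7 := hmin' x hxQ
            nlinarith
          · rw [indicator_of_notMem hxQ]
            have h7 := hm0le x hx
            nlinarith
        have h4 : ∫ x in K, (m0 * √(Wf F v (τ v) x) +
            Q.indicator (fun x => (m - m0) * √(Wf F v (τ v) x)) x) =
            m0 * (∫ x in K, √(Wf F v (τ v) x)) + (m - m0) * ∫ x in Q, √(Wf F v (τ v) x) := by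
          have hi1 : IntegrableOn (fun x => m0 * √(Wf F v (τ v) x)) K := (hWi v).const_mul m0
          have hi2 : IntegrableOn (Q.indicator fun x => (m - m0) * √(Wf F v (τ v) x)) K := by
            have h5 : IntegrableOn (fun x => (m - m0) * √(Wf F v (τ v) x)) K :=
              (hWi v).const_mul (m - m0)
            exact Integrable.indicator h5 hQc.measurableSet
          rw [integral_add hi1 hi2, integral_const_mul, integral_indicator hQc.measurableSet,
            Measure.restrict_restrict hQc.measurableSet, integral_const_mul,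
            inter_eq_left.2 (hQK.trans interior_subset)]
        have h5 := hlb v
        have h6 := hcsi v
        have h7 := hWpos v
        have h8 : (m - m0) * (c * ∫ x in K, √(Wf F v (τ v) x)) ≤
            (m - m0) * ∫ x in Q, √(Wf F v (τ v) x) :=
          mul_le_mul_of_nonneg_left h5 (by linarith)
        have h9 : (m0 + c * (m - m0)) * (∫ x in K, √(Wf F v (τ v) x)) ≤
            r (Y v) * ∫ x in K, √(Wf F v (τ v) x) := by
          rw [h4] at h3
          linarith
        exact le_of_mul_le_mul_right h9 h7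
      have h3 := mul_pos hc (sub_pos.2 hlt)
      linarith
    exact fun y hy => h1.trans (hm0le y hy)
  -- the set of directions
  set Z : Set (E n) := {v | r (Y v) = m} with hZdef
  have hZc : IsClosed Z := isClosed_eq hrYc continuous_const
  have hZne : Z.Nonempty := by
    obtain ⟨v, hv⟩ := hB.Ysurj y0 (hQK hy0)
    refine ⟨v, ?_⟩
    show r (Y v) = m
    have hv' : Y v = y0 := hv
    rw [hv']
  -- spreading over the section
  have hspread : ∀ v ∈ Z, ∀ y ∈ D, 0 < Wf F v (τ v) y → r y = m := by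
    intro v hv y hy hW
    have hv' : r (Y v) = m := hv
    set h : E n → ℝ := fun y => (r y - m) * √(Wf F v (τ v) y) with hh
    have hhi : IntegrableOn h K := by
      have h1 : IntegrableOn (fun x => m * √(Wf F v (τ v) x)) K := (hWi v).const_mul m
      refine ((hrWi v).sub h1).congr ?_
      filter_upwards with x
      simp only [hh, Pi.sub_apply]
      ring
    have hh0 : ∀ x ∈ D, 0 ≤ h x := fun x hx =>
      mul_nonneg (sub_nonneg.2 (hmD x hx)) (Real.sqrt_nonneg _)
    have hint : ∫ x in K, h x ≤ 0 := by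
      have h1 : ∫ x in K, h x = (∫ x in K, r x * √(Wf F v (τ v) x)) -
          m * ∫ x in K, √(Wf F v (τ v) x) := by
        rw [← integral_const_mul, ← integral_sub (hrWi v) ((hWi v).const_mul m)]
        apply integral_congr_ae
        filter_upwards with x
        simp only [hh]
        ring
      have h2 := hcsi v
      rw [hv'] at h2
      rw [h1]
      linarith
    rw [restr_eq hcb] at hint
    have hhi' : IntegrableOn h D := by
      unfold IntegrableOn at hhi ⊢
      rwa [restr_eq hcb] at hhi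
    have hae0 : 0 ≤ᵐ[volume.restrict D] h :=
      (ae_restrict_iff' hDo.measurableSet).2 (Filter.Eventually.of_forall hh0)
    have hz : ∫ x in D, h x = 0 := le_antisymm hint (integral_nonneg_of_ae hae0)
    have haeq : h =ᵐ[volume.restrict D] fun _ => (0 : ℝ) :=
      (integral_eq_zero_iff_of_nonneg_ae hae0 hhi').1 hz
    have hhc : ContinuousOn h D := (hrc.sub continuousOn_const).mul (hWc v)
    have heq := Measure.eqOn_open_of_ae_eq haeq hDo hhc continuousOn_const
    have h3 : (r y - m) * √(Wf F v (τ v) y) = 0 := heq hy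
    have h4 : 0 < √(Wf F v (τ v) y) := Real.sqrt_pos.2 hW
    rcases mul_eq_zero.1 h3 with h5 | h5
    · linarith
    · exact absurd h5 h4.ne'
  -- spreading over the larger section
  have hspread2 : ∀ v ∈ Z, ∀ y ∈ D, m * |τ v - inner ℝ v y| < g y → r y = m := by
    intro v hv y hy hgy
    by_contra hne
    set S2 : Set (E n) := {x | x ∈ D ∧ 0 < g x - m * |τ v - inner ℝ v x|} with hS2
    have hconv : Convex ℝ S2 := by
      have h1 : ConvexOn ℝ D fun x : E n => |τ v - inner ℝ v x| := by
        refine ⟨hcb.conv.interior, fun x _ z _ a b ha hb hab => ?_⟩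
        simp only [smul_eq_mul]
        have h2 : τ v - inner ℝ v (a • x + b • z) =
            a * (τ v - inner ℝ v x) + b * (τ v - inner ℝ v z) := by
          rw [inner_add_right, inner_smul_right, inner_smul_right]
          linear_combination (-(τ v)) * hab
        rw [h2]
        refine (abs_add_le _ _).trans ?_
        rw [abs_mul, abs_mul, abs_of_nonneg ha, abs_of_nonneg hb]
      have h2 : ConcaveOn ℝ D fun x : E n => g x - m * |τ v - inner ℝ v x| := by
        have h3 := hgconc.sub (h1.smul hmpos.le)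
        exact h3
      exact h2.convex_gt 0
    have hpre : IsPreconnected S2 := hconv.isPreconnected
    set S1 : Set (E n) := {x | x ∈ D ∧ 0 < Wf F v (τ v) x} with hS1
    set U : Set (E n) := {x | x ∈ D ∧ r x ≠ m} with hU
    have hS1o : IsOpen S1 := by
      have := (W_cont hF v (τ v)).isOpen_inter_preimage hDo (isOpen_Ioi (a := (0 : ℝ)))
      exact this
    have hUo : IsOpen U := by
      have := hrc.isOpen_inter_preimage hDo (isOpen_ne (x := m))
      exact this
    have hcov : S2 ⊆ S1 ∪ U := by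
      rintro x ⟨hx, hx2⟩
      by_cases h1 : r x = m
      · left
        refine ⟨hx, ?_⟩
        rw [hgr x hx, h1] at hx2
        have h2 : |τ v - inner ℝ v x| < √(F x) :=
          lt_of_mul_lt_mul_left (by linarith : m * |τ v - inner ℝ v x| < m * √(F x)) hmpos.le
        have h3 : (τ v - inner ℝ v x) ^ 2 < F x := by
          rw [← sq_abs]
          calc |τ v - inner ℝ v x| ^ 2 < √(F x) ^ 2 :=
                pow_lt_pow_left₀ h2 (abs_nonneg _) two_ne_zero
            _ = F x := Real.sq_sqrt (hF.pos x hx).le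
        unfold Wf
        linarith
      · exact Or.inr ⟨hx, h1⟩
    have hS12 : ∀ x ∈ S1, x ∈ S2 := by
      rintro x ⟨hx, hx1⟩
      refine ⟨hx, ?_⟩
      have h1 := hspread v hv x hx hx1
      rw [hgr x hx, h1]
      have h2 : |τ v - inner ℝ v x| < √(F x) := by
        apply Real.lt_sqrt_of_sq_lt
        rw [sq_abs]
        unfold Wf at hx1
        linarith
      have := mul_pos hmpos (sub_pos.2 h2)
      linarith
    obtain ⟨x1, hx1, hx1W⟩ := hL.ne v
    have hne1 : (S2 ∩ S1).Nonempty := ⟨x1, hS12 x1 ⟨hx1, hx1W⟩, hx1, hx1W⟩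
    have hne2 : (S2 ∩ U).Nonempty := ⟨y, ⟨hy, by linarith⟩, hy, hne⟩
    obtain ⟨x, _, hxS1, hxU⟩ := hpre S1 U hS1o hUo hcov hne1 hne2
    exact hxU.2 (hspread v hv x hxS1.1 hxS1.2)
  -- propagation
  have hsp : ∀ u ∈ Z, ∀ v, |τ u - inner ℝ u (Y v)| < ξ v → v ∈ Z := by
    intro u hu v huv
    refine hspread2 u hu (Y v) (hYD v) ?_
    have h1 : m * ∫ y in K, √(Wf F v (τ v) y) ≤ ∫ y in K, r y * √(Wf F v (τ v) y) := by
      rw [← integral_const_mul]
      refine integral_mono_ae ((hWi v).const_mul m) (hrWi v) ?_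
      rw [restr_eq hcb]
      filter_upwards [ae_restrict_mem hDo.measurableSet] with x hx
      exact mul_le_mul_of_nonneg_right (hmD x hx) (Real.sqrt_nonneg _)
    have h2 := hsup v
    rw [hξ v] at h1
    have h3 : π * lam * (m * ξ v) ≤ π * lam * g (Y v) := by linarith
    have h4 : m * ξ v ≤ g (Y v) := le_of_mul_le_mul_left h3 hpl
    have h5 := mul_lt_mul_of_pos_left huv hmpos
    linarith
  have hup : ∀ v, ∃ y ∈ D, |τ v - inner ℝ v y| < √(F y) := by
    intro v
    obtain ⟨y, hy, hW⟩ := hL.ne v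
    refine ⟨y, hy, ?_⟩
    apply Real.lt_sqrt_of_sq_lt
    rw [sq_abs]
    unfold Wf at hW
    linarith
  have tup : ∀ v, τ v < inner ℝ v (Y v) + ξ v := by
    intro v
    obtain ⟨y, hy, h1⟩ := hup v
    have h2 := hsub v y hy
    have h3 := (abs_lt.1 h1).2
    linarith
  have tlo : ∀ v, inner ℝ v (Y (-v)) - ξ (-v) < τ v := by
    intro v
    obtain ⟨y, hy, h1⟩ := hup v
    have h2 := hsub (-v) y hy
    rw [inner_neg_left, inner_neg_left] at h2
    have h3 := (abs_lt.1 h1).1
    linarith
  have hall := propag hB.Yc hB.xc hL.cont hB.xpos tup tlo hZc hZne hsp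
  refine ⟨m, hmpos, fun y hy => ?_⟩
  obtain ⟨v, hv⟩ := hB.Ysurj y hy
  have h1 : r (Y v) = m := hall v
  have hv' : Y v = y := hv
  rw [hv'] at h1
  rw [hgr y hy, h1]

end Pool.Agent.Helper79.FU
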